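import Pool.Agent.R441.Num

/-!
The conjectured value of `S_1(p) = ∑_{k<p} binom(-1/3,k) binom(-1/6,k) (27/2)^k` modulo `p²`
is wrong for `p = 11`.
-/

set_option autoImplicit false

namespace Pool.Agent.Results.MP_0a3b9a_nt.ElevenFails

open Pool.Agent.R441 (CongMod not_congMod)

/-- `binom(a,k) = a (a-1) ⋯ (a-k+1) / k!` -/
def bc (a : ℚ) (k : ℕ) : ℚ := (∏ j ∈ Finset.range k, (a - j)) / k.factorial

/-- `S_1(p) = ∑_{k<p} binom(-1/3,k) binom(-1/6,k) (27/2)^k` -/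
def S1 (p : ℕ) : ℚ := ∑ k ∈ Finset.range p, bc (-1 / 3) k * bc (-1 / 6) k * (27 / 2) ^ k

/-- The Legendre symbol of a residue class modulo the prime `p` -/
def leg (p : ℕ) [NeZero p] (r : ZMod p) : ℤ := if r = 0 then 0 else if IsSquare r then 1 else -1

/-- The right-hand side `R(p)` of the conjecture for `p = c² + 2 d²` -/
def R (p : ℕ) [NeZero p] (c d : ℤ) : ℚ :=
  if p % 24 = 1 ∨ p % 24 = 19 then
    (-1) ^ (p / 8) * leg p (-2 - (c : ZMod p) * (d : ZMod p)⁻¹) * (2 * c - p / (2 * c))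
  else
    (-1) ^ (p / 8) * leg p (2 + (c : ZMod p) * (d : ZMod p)⁻¹) * (10 * d - 5 * p / (4 * d))

/-- There is a prime `p ≡ 3 (mod 8)`, `p ≡ 11 (mod 24)` (namely `p = 11`), such that for all
`c ≡ 1 (mod 4)` and `d` with `p = c² + 2 d²` the conjectured congruence `S_1(p) ≡ R(p) (mod p²)`
fails; in fact `S_1(p) ≡ -R(p) (mod p²)`. -/
theorem result : ∃ p : ℕ, ∃ _ : NeZero p, p = 11 ∧ p.Prime ∧ p % 8 = 3 ∧
    (∃ c d : ℤ, (p : ℤ) = c ^ 2 + 2 * d ^ 2 ∧ c % 4 = 1) ∧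
    ∀ c d : ℤ, (p : ℤ) = c ^ 2 + 2 * d ^ 2 → c % 4 = 1 →
      ¬ CongMod p 2 (S1 p) (R p c d) ∧ CongMod p 2 (S1 p) (-R p c d) := by
  refine ⟨11, ⟨by norm_num⟩, rfl, by norm_num, by norm_num,
    ⟨-3, 1, by norm_num, by norm_num⟩, ?_⟩
  intro c d h hc
  have hx : c ^ 2 ≤ 11 := by push_cast at h; nlinarith [sq_nonneg d]
  have hy : d ^ 2 ≤ 6 := by push_cast at h; nlinarith [sq_nonneg c]
  have hx1 : c ≤ 3 := by nlinarith
  have hx2 : -3 ≤ c := by nlinarith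
  have hy1 : d ≤ 2 := by nlinarith
  have hy2 : -2 ≤ d := by nlinarith
  have hcd : c = -3 ∧ (d = 1 ∨ d = -1) := by
    push_cast at h
    interval_cases d <;> interval_cases c <;> simp_all
  obtain ⟨rfl, rfl | rfl⟩ := hcd
  · refine ⟨not_congMod (by norm_num) (by decide +kernel), ?_⟩
    refine ⟨(S1 11 - -R 11 (-3) 1) / 11 ^ 2, by decide +kernel, by push_cast; ring⟩
  · refine ⟨not_congMod (by norm_num) (by decide +kernel), ?_⟩
    refine ⟨(S1 11 - -R 11 (-3) (-1)) / 11 ^ 2, by decide +kernel, by push_cast; ring⟩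

end Pool.Agent.Results.MP_0a3b9a_nt.ElevenFails
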